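import Pool.Agent.Q173.RF.Comb

/-! Construction of the trees obtained by splitting an edge and by copying a component. -/

namespace Q173RF

/-- The graph obtained by splitting the edge `⟨a, b⟩`. -/
def splitGraph {V : Type} (G : SimpleGraph V) (a b : V) : SimpleGraph (Option V) where
  Adj x y := match x, y with
    | some x, some y => G.Adj x y ∧ s(x, y) ≠ s(a, b)
    | none, some x => x = a ∨ x = b
    | some x, none => x = a ∨ x = b
    | none, none => False
  symm := ⟨by
    rintro (_ | x) (_ | y) h
    · exact h
    · exact h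
    · exact h
    · exact ⟨h.1.symm, by rw [Sym2.eq_swap]; exact h.2⟩⟩
  loopless := ⟨by
    rintro (_ | x) h
    · exact h
    · exact G.loopless.1 x h.1⟩

lemma splitGraph_connected {V : Type} {G : SimpleGraph V} (hG : G.Connected) {a b : V}
    (hab : G.Adj a b) : (splitGraph G a b).Connected := by
  have h0 : (splitGraph G a b).Adj none (some a) := Or.inl rfl
  have h1 : (splitGraph G a b).Adj none (some b) := Or.inr rfl
  have h2 : ∀ x y, G.Walk x y → (splitGraph G a b).Reachable (some x) (some y) := by
    intro x y p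
    induction p with
    | nil => exact SimpleGraph.Reachable.refl _
    | @cons x z _ h _ ih =>
      refine SimpleGraph.Reachable.trans ?_ ih
      by_cases he : s(x, z) = s(a, b)
      · rcases Sym2.eq_iff.1 he with ⟨rfl, rfl⟩ | ⟨rfl, rfl⟩
        · exact h0.symm.reachable.trans h1.reachable
        · exact h1.symm.reachable.trans h0.reachable
      · exact SimpleGraph.Adj.reachable (show G.Adj x z ∧ s(x, z) ≠ s(a, b) from ⟨h, he⟩)
  have h3 : ∀ x, (splitGraph G a b).Reachable x (some a) := by
    rintro (_ | x)
    · exact h0.reachable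
    · obtain ⟨p⟩ := hG.preconnected x a
      exact h2 x a p
  exact { preconnected := fun x y => (h3 x).trans (h3 y).symm, nonempty := ⟨none⟩ }

lemma splitGraph_acyclic {V : Type} {G : SimpleGraph V} (hG : G.IsAcyclic) {a b : V}
    (hab : G.Adj a b) : (splitGraph G a b).IsAcyclic := by
  classical
  rw [SimpleGraph.isAcyclic_iff_forall_adj_isBridge]
  have hne : a ≠ b := hab.ne
  -- the edge `⟨none, some b⟩`, collapsing `none` to `a`; general statement
  have key : ∀ a b : V, G.Adj a b → ∀ x y : Option V, (splitGraph G a b).Adj x y →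
      s(x, y) ≠ s(none, some a) → (splitGraph G a b).IsBridge s(x, y) := by
    intro a b hab x y hxy hne
    have hab' : a ≠ b := hab.ne
    let ρ : Option V → V := fun o => o.getD a
    apply bridge_of_collapse hG ρ
    · rcases x with _ | x <;> rcases y with _ | y
      · exact hxy.elim
      · rcases hxy with rfl | rfl
        · exact absurd rfl hne
        · exact hab
      · rcases hxy with rfl | rfl
        · exact absurd (Sym2.eq_swap) hne
        · exact hab.symm
      · exact hxy.1
    · rintro (_ | x') (_ | y') h' hne'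
      · exact h'.elim
      · rcases h' with rfl | rfl
        · exact Or.inl rfl
        · refine Or.inr ⟨hab, ?_⟩
          rcases x with _ | x <;> rcases y with _ | y
          · exact hxy.elim
          · rcases hxy with rfl | rfl
            · exact absurd rfl hne
            · exact absurd rfl hne'
          · rcases hxy with rfl | rfl
            · exact absurd (Sym2.eq_swap) hne
            · exact absurd (Sym2.eq_swap) hne'
          · exact fun h => hxy.2 h.symm
      · rcases h' with rfl | rfl
        · exact Or.inl rfl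
        · refine Or.inr ⟨hab.symm, ?_⟩
          rcases x with _ | x <;> rcases y with _ | y
          · exact hxy.elim
          · rcases hxy with rfl | rfl
            · exact absurd rfl hne
            · exact absurd (Sym2.eq_swap) hne'
          · rcases hxy with rfl | rfl
            · exact absurd (Sym2.eq_swap) hne
            · exact absurd rfl hne'
          · intro h
            apply hxy.2
            have h' : s(x', a) = s(x, y) := h
            rw [← h']
            exact Sym2.eq_swap
      · refine Or.inr ⟨h'.1, ?_⟩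
        rcases x with _ | x <;> rcases y with _ | y
        · exact hxy.elim
        · rcases hxy with rfl | rfl
          · exact absurd rfl hne
          · exact h'.2
        · rcases hxy with rfl | rfl
          · exact absurd (Sym2.eq_swap) hne
          · intro h
            apply h'.2
            have h2 : s(x', y') = s(x, a) := h
            rw [h2]
            exact Sym2.eq_swap
        · intro h
          apply hne'
          have h2 : s(x', y') = s(x, y) := h
          rcases Sym2.eq_iff.1 h2 with ⟨rfl, rfl⟩ | ⟨rfl, rfl⟩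
          · rfl
          · exact Sym2.eq_swap
  have hsym : splitGraph G a b = splitGraph G b a := by
    ext x y
    rcases x with _ | x <;> rcases y with _ | y
    · exact Iff.rfl
    · exact or_comm
    · exact or_comm
    · show G.Adj x y ∧ s(x, y) ≠ s(a, b) ↔ G.Adj x y ∧ s(x, y) ≠ s(b, a)
      rw [Sym2.eq_swap (a := a)]
  intro x y hxy
  by_cases h : s(x, y) = s(none, some a)
  · rw [hsym] at hxy ⊢
    refine key b a hab.symm x y hxy ?_
    rw [h]
    intro h'
    rcases Sym2.eq_iff.1 h' with ⟨-, h2⟩ | ⟨h2, -⟩
    · exact hne (Option.some.inj h2)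
    · exact absurd h2 (by simp)
  · exact key a b hab x y hxy h

/-- The tree obtained by splitting an edge. -/
def splitTree (T : RTree) (a b : T.V) (hab : T.G.Adj a b) : RTree where
  V := Option T.V
  finite := inferInstance
  G := splitGraph T.G a b
  isTree := ⟨splitGraph_connected T.isTree.connected hab, splitGraph_acyclic T.isTree.isAcyclic hab⟩
  root := some T.root

lemma splitTree_isSplit (T : RTree) (a b : T.V) (hab : T.G.Adj a b) :
    IsSplit (splitTree T a b hab) T (fun o : Option T.V => o.getD a) := by
  refine ⟨a, b, some, none, hab, Option.some_injective _, fun x => by simp, ?_, rfl,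
    fun x y => Iff.rfl, fun x => Iff.rfl, fun x => rfl, rfl⟩
  rintro (_ | x)
  · exact Or.inr rfl
  · exact Or.inl ⟨x, rfl⟩

/-- The graph obtained by adding a copy of `C` attached to `v`. -/
def copyGraph {V : Type} (G : SimpleGraph V) (v : V) (C : Set V) : SimpleGraph (V ⊕ C) where
  Adj x y := match x, y with
    | Sum.inl x, Sum.inl y => G.Adj x y
    | Sum.inr x, Sum.inr y => G.Adj x y
    | Sum.inl x, Sum.inr y => x = v ∧ G.Adj v y
    | Sum.inr x, Sum.inl y => y = v ∧ G.Adj v x
  symm := ⟨by
    rintro (x | x) (y | y) h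
    · exact h.symm
    · exact h
    · exact h
    · exact h.symm⟩
  loopless := ⟨by
    rintro (x | x) h
    · exact G.loopless.1 x h
    · exact G.loopless.1 x h⟩

lemma copyGraph_connected {T : RTree} {v : T.V} {C : Set T.V} (hC : IsComponent T v C) :
    (copyGraph T.G v C).Connected := by
  have h1 : ∀ x y, T.G.Walk x y → (copyGraph T.G v C).Reachable (Sum.inl x) (Sum.inl y) := by
    intro x y p
    induction p with
    | nil => exact SimpleGraph.Reachable.refl _
    | @cons x z _ h _ ih =>
      exact SimpleGraph.Reachable.trans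
        (SimpleGraph.Adj.reachable (show (copyGraph T.G v C).Adj (Sum.inl x) (Sum.inl z) from h)) ih
  have h2 : ∀ x y, T.G.Walk x y → y = v → ∀ hx : x ∈ C,
      (copyGraph T.G v C).Reachable (Sum.inr ⟨x, hx⟩) (Sum.inl v) := by
    intro x y p
    induction p with
    | nil =>
      rintro rfl hx
      exact absurd hx hC.notMem
    | @cons x z _ h _ ih =>
      intro hy hx
      by_cases hz : z = v
      · subst hz
        exact SimpleGraph.Adj.reachable
          (show (copyGraph T.G z C).Adj (Sum.inr ⟨x, hx⟩) (Sum.inl z) from ⟨rfl, h.symm⟩)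
      · have hzC : z ∈ C := hC.closed hx h hz
        exact SimpleGraph.Reachable.trans
          (SimpleGraph.Adj.reachable (show (copyGraph T.G v C).Adj (Sum.inr ⟨x, hx⟩)
            (Sum.inr ⟨z, hzC⟩) from h)) (ih hy hzC)
  have h3 : ∀ x, (copyGraph T.G v C).Reachable x (Sum.inl v) := by
    rintro (x | x)
    · obtain ⟨p⟩ := T.isTree.connected.preconnected x v
      exact h1 x v p
    · obtain ⟨p⟩ := T.isTree.connected.preconnected x v
      exact h2 x v p rfl x.2
  exact { preconnected := fun x y => (h3 x).trans (h3 y).symm, nonempty := ⟨Sum.inl v⟩ }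

lemma copyGraph_acyclic {T : RTree} {v : T.V} {C : Set T.V} (hC : IsComponent T v C) :
    (copyGraph T.G v C).IsAcyclic := by
  rw [SimpleGraph.isAcyclic_iff_forall_adj_isBridge]
  have hG := T.isTree.isAcyclic
  have hv := hC.notMem
  have k1 : ∀ x y : T.V, T.G.Adj x y →
      (copyGraph T.G v C).IsBridge s(Sum.inl x, Sum.inl y) := by
    intro x y hxy
    let ρ : T.V ⊕ C → T.V := Sum.elim id fun _ => v
    apply bridge_of_collapse (s := Sum.inl x) (t := Sum.inl y) hG ρ hxy
    rintro (x' | x') (y' | y') h' hne'
    · refine Or.inr ⟨h', fun h => hne' ?_⟩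
      have h2 : s(x', y') = s(x, y) := h
      rcases Sym2.eq_iff.1 h2 with ⟨rfl, rfl⟩ | ⟨rfl, rfl⟩
      · rfl
      · exact Sym2.eq_swap
    · exact Or.inl h'.1
    · exact Or.inl h'.1.symm
    · exact Or.inl rfl
  have k2 : ∀ x y : C, T.G.Adj x y →
      (copyGraph T.G v C).IsBridge s(Sum.inr x, Sum.inr y) := by
    intro x y hxy
    let ρ : T.V ⊕ C → T.V := Sum.elim (fun _ => v) fun c => c
    apply bridge_of_collapse (s := Sum.inr x) (t := Sum.inr y) hG ρ hxy
    rintro (x' | x') (y' | y') h' hne'
    · exact Or.inl rfl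
    · refine Or.inr ⟨h'.2, fun h => ?_⟩
      have h0 : s(v, (y' : T.V)) = s((x : T.V), (y : T.V)) := h
      rcases Sym2.eq_iff.1 h0 with ⟨h1, -⟩ | ⟨h1, -⟩
      · exact hv (h1 ▸ x.2)
      · exact hv (h1 ▸ y.2)
    · refine Or.inr ⟨h'.2.symm, fun h => ?_⟩
      have h0 : s((x' : T.V), v) = s((x : T.V), (y : T.V)) := h
      rcases Sym2.eq_iff.1 h0 with ⟨-, h1⟩ | ⟨-, h1⟩
      · exact hv (h1 ▸ y.2)
      · exact hv (h1 ▸ x.2)
    · refine Or.inr ⟨h', fun h => hne' ?_⟩
      have h0 : s((x' : T.V), (y' : T.V)) = s((x : T.V), (y : T.V)) := h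
      rcases Sym2.eq_iff.1 h0 with ⟨h1, h2⟩ | ⟨h1, h2⟩
      · rw [Subtype.ext h1, Subtype.ext h2]
      · rw [Subtype.ext h1, Subtype.ext h2, Sym2.eq_swap]
  have k3 : ∀ y : C, T.G.Adj v y →
      (copyGraph T.G v C).IsBridge s(Sum.inl v, Sum.inr y) := by
    intro y hxy
    let ρ : T.V ⊕ C → T.V := Sum.elim (fun _ => v) fun c => c
    apply bridge_of_collapse (s := Sum.inl v) (t := Sum.inr y) hG ρ hxy
    rintro (x' | x') (y' | y') h' hne'
    · exact Or.inl rfl
    · refine Or.inr ⟨h'.2, fun h => hne' ?_⟩
      have h0 : s(v, (y' : T.V)) = s(v, (y : T.V)) := h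
      rcases Sym2.eq_iff.1 h0 with ⟨-, h1⟩ | ⟨h1, -⟩
      · rw [Subtype.ext h1, h'.1]
      · exact absurd (h1 ▸ y.2) hv
    · refine Or.inr ⟨h'.2.symm, fun h => hne' ?_⟩
      have h0 : s((x' : T.V), v) = s(v, (y : T.V)) := h
      rcases Sym2.eq_iff.1 h0 with ⟨h1, -⟩ | ⟨h1, -⟩
      · exact absurd (h1 ▸ x'.2) hv
      · rw [Subtype.ext h1, h'.1, Sym2.eq_swap]
    · refine Or.inr ⟨h', fun h => ?_⟩
      have h0 : s((x' : T.V), (y' : T.V)) = s(v, (y : T.V)) := h
      rcases Sym2.eq_iff.1 h0 with ⟨h1, -⟩ | ⟨-, h1⟩
      · exact hv (h1 ▸ x'.2)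
      · exact hv (h1 ▸ y'.2)
  rintro (x | x) (y | y) h
  · exact k1 x y h
  · obtain ⟨rfl, h2⟩ := h
    exact k3 y h2
  · obtain ⟨rfl, h2⟩ := h
    rw [Sym2.eq_swap]
    exact k3 x h2
  · exact k2 x y h

/-- The tree obtained by adding a copy of a component. -/
def copyTree (T : RTree) (v : T.V) (C : Set T.V) (hC : IsComponent T v C) : RTree where
  V := T.V ⊕ C
  finite := inferInstance
  G := copyGraph T.G v C
  isTree := ⟨copyGraph_connected hC, copyGraph_acyclic hC⟩
  root := Sum.inl T.root

/-- The step map. -/
def copyMap (T : RTree) (C : Set T.V) : T.V ⊕ C → T.V := Sum.elim id fun c => c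

lemma copyTree_isCopy (T : RTree) (v : T.V) (C : Set T.V) (hC : IsComponent T v C)
    (hr : T.root ∉ C) : IsCopy (copyTree T v C hC) T (copyMap T C) := by
  refine ⟨v, C, Sum.inl, Sum.inr, hC, hr, Sum.inl_injective, Sum.inr_injective, fun x c => by simp,
    ?_, rfl, fun x y => Iff.rfl, fun x y => Iff.rfl, fun x y => Iff.rfl, fun x => rfl, fun y => rfl⟩
  rintro (x | x)
  · exact Or.inl ⟨x, rfl⟩
  · exact Or.inr ⟨x, rfl⟩

end Q173RF
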