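import Pool.Agent.Q173.RF.Defs

/-! Combinatorics of simple*-confluent maps. -/

namespace Q173RF

open Relation

/-- Every vertex of `B` is connected to the root inside `B`. -/
def RConn (T : RTree) (B : Set T.V) : Prop :=
  T.root ∈ B ∧ ∀ x ∈ B, ReflTransGen (fun a b => a ∈ B ∧ b ∈ B ∧ T.G.Adj a b) x T.root

structure Good (S T : RTree) (f : S.V → T.V) : Prop where
  surj : Function.Surjective f
  root : f S.root = T.root
  edge : ∀ x y, S.Edge x y → T.Edge (f x) (f y)
  conn : ∀ B : Set T.V, RConn T B → RConn S (f ⁻¹' B)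

lemma RTree.Edge.symm {A : RTree} {x y : A.V} (h : A.Edge x y) : A.Edge y x := by
  rcases h with h | h
  · exact Or.inl h.symm
  · exact Or.inr h.symm

lemma Good.id (S : RTree) : Good S S id :=
  ⟨Function.surjective_id, rfl, fun _ _ h => h, fun _ h => h⟩

lemma Good.comp {R S T : RTree} {g : R.V → S.V} {f : S.V → T.V} (hg : Good R S g)
    (hf : Good S T f) : Good R T (f ∘ g) :=
  ⟨hf.surj.comp hg.surj, by rw [Function.comp_apply, hg.root, hf.root],
    fun x y h => hf.edge _ _ (hg.edge _ _ h), fun B hB => hg.conn _ (hf.conn B hB)⟩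

lemma good_iso {S T : RTree} (e : S.G ≃g T.G) (h : e S.root = T.root) : Good S T e := by
  refine ⟨e.surjective, h, ?_, ?_⟩
  · rintro x y (rfl | h)
    · exact Or.inl rfl
    · exact Or.inr (e.map_adj_iff.2 h)
  · rintro B ⟨h1, h2⟩
    refine ⟨by rw [Set.mem_preimage, h]; exact h1, fun x hx => ?_⟩
    have h3 := h2 (e x) hx
    have h4 : ∀ y, ReflTransGen (fun a b => a ∈ B ∧ b ∈ B ∧ T.G.Adj a b) y T.root →
        ReflTransGen (fun a b => a ∈ e ⁻¹' B ∧ b ∈ e ⁻¹' B ∧ S.G.Adj a b) (e.symm y) S.root := by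
      intro y hy
      induction hy using ReflTransGen.head_induction_on with
      | refl => rw [← h, RelIso.symm_apply_apply]
      | head hab _ ih =>
        refine ReflTransGen.head ⟨?_, ?_, ?_⟩ ih
        · rw [Set.mem_preimage, RelIso.apply_symm_apply]
          exact hab.1
        · rw [Set.mem_preimage, RelIso.apply_symm_apply]
          exact hab.2.1
        · exact e.symm.map_adj_iff.2 hab.2.2
    have h5 := h4 (e x) h3
    rwa [RelIso.symm_apply_apply] at h5

lemma good_split {S T : RTree} {f : S.V → T.V} (h : IsSplit S T f) : Good S T f := by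
  obtain ⟨a, b, i, c, hab, hi, hic, hcov, hroot, hadj, hcadj, hfi, hfc⟩ := h
  refine ⟨fun x => ⟨i x, hfi x⟩, by rw [hroot, hfi], ?_, ?_⟩
  · rintro x y (rfl | h)
    · exact Or.inl rfl
    · rcases hcov x with ⟨x', rfl⟩ | rfl <;> rcases hcov y with ⟨y', rfl⟩ | rfl
      · rw [hfi, hfi]
        exact Or.inr ((hadj _ _).1 h).1
      · rw [hfi, hfc]
        rcases (hcadj _).1 h.symm with rfl | rfl
        · exact Or.inl rfl
        · exact Or.inr hab.symm
      · rw [hfi, hfc]
        rcases (hcadj _).1 h with rfl | rfl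
        · exact Or.inl rfl
        · exact Or.inr hab
      · exact Or.inl rfl
  · rintro B ⟨h1, h2⟩
    have h4 : ∀ y, y ∈ B → ReflTransGen (fun a b => a ∈ B ∧ b ∈ B ∧ T.G.Adj a b) y T.root →
        ReflTransGen (fun a b => a ∈ f ⁻¹' B ∧ b ∈ f ⁻¹' B ∧ S.G.Adj a b) (i y) S.root := by
      intro y _ hy
      induction hy using ReflTransGen.head_induction_on with
      | refl => rw [hroot]
      | @head x z hxz _ ih =>
        have ih' := ih hxz.2.1
        by_cases he : s(x, z) = s(a, b)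
        · have hc : c ∈ f ⁻¹' B := by
            rw [Set.mem_preimage, hfc]
            rcases Sym2.eq_iff.1 he with ⟨rfl, rfl⟩ | ⟨rfl, rfl⟩
            · exact hxz.1
            · exact hxz.2.1
          have e1 : S.G.Adj c (i x) := by
            rw [hcadj]
            rcases Sym2.eq_iff.1 he with ⟨rfl, rfl⟩ | ⟨rfl, rfl⟩
            · exact Or.inl rfl
            · exact Or.inr rfl
          have e2 : S.G.Adj c (i z) := by
            rw [hcadj]
            rcases Sym2.eq_iff.1 he with ⟨rfl, rfl⟩ | ⟨rfl, rfl⟩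
            · exact Or.inr rfl
            · exact Or.inl rfl
          refine ReflTransGen.head ⟨?_, hc, e1.symm⟩ (ReflTransGen.head ⟨hc, ?_, e2⟩ ih')
          · rw [Set.mem_preimage, hfi]; exact hxz.1
          · rw [Set.mem_preimage, hfi]; exact hxz.2.1
        · refine ReflTransGen.head ⟨?_, ?_, (hadj x z).2 ⟨hxz.2.2, he⟩⟩ ih'
          · rw [Set.mem_preimage, hfi]; exact hxz.1
          · rw [Set.mem_preimage, hfi]; exact hxz.2.1
    refine ⟨by rw [Set.mem_preimage, hroot, hfi]; exact h1, fun x hx => ?_⟩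
    rcases hcov x with ⟨x', rfl⟩ | rfl
    · rw [Set.mem_preimage, hfi] at hx
      exact h4 x' hx (h2 x' hx)
    · have ha : a ∈ B := by rwa [Set.mem_preimage, hfc] at hx
      refine ReflTransGen.head ⟨hx, ?_, (hcadj a).2 (Or.inl rfl)⟩ (h4 a ha (h2 a ha))
      rw [Set.mem_preimage, hfi]; exact ha

lemma good_leaf {S T : RTree} {f : S.V → T.V} (h : IsLeaf S T f) : Good S T f := by
  obtain ⟨v, i, w, hi, hiw, hcov, hroot, hadj, hwadj, hfi, hfw⟩ := h
  refine ⟨fun x => ⟨i x, hfi x⟩, by rw [hroot, hfi], ?_, ?_⟩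
  · rintro x y (rfl | h)
    · exact Or.inl rfl
    · rcases hcov x with ⟨x', rfl⟩ | rfl <;> rcases hcov y with ⟨y', rfl⟩ | rfl
      · rw [hfi, hfi]
        exact Or.inr ((hadj _ _).1 h)
      · rw [hfi, hfw]
        exact Or.inl ((hwadj _).1 h.symm)
      · rw [hfi, hfw]
        exact Or.inl ((hwadj _).1 h).symm
      · exact Or.inl rfl
  · rintro B ⟨h1, h2⟩
    have h4 : ∀ y, y ∈ B → ReflTransGen (fun a b => a ∈ B ∧ b ∈ B ∧ T.G.Adj a b) y T.root →
        ReflTransGen (fun a b => a ∈ f ⁻¹' B ∧ b ∈ f ⁻¹' B ∧ S.G.Adj a b) (i y) S.root := by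
      intro y _ hy
      induction hy using ReflTransGen.head_induction_on with
      | refl => rw [hroot]
      | @head x z hxz _ ih =>
        refine ReflTransGen.head ⟨?_, ?_, (hadj x z).2 hxz.2.2⟩ (ih hxz.2.1)
        · rw [Set.mem_preimage, hfi]; exact hxz.1
        · rw [Set.mem_preimage, hfi]; exact hxz.2.1
    refine ⟨by rw [Set.mem_preimage, hroot, hfi]; exact h1, fun x hx => ?_⟩
    rcases hcov x with ⟨x', rfl⟩ | rfl
    · rw [Set.mem_preimage, hfi] at hx
      exact h4 x' hx (h2 x' hx)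
    · have ha : v ∈ B := by rwa [Set.mem_preimage, hfw] at hx
      refine ReflTransGen.head ⟨hx, ?_, (hwadj v).2 rfl⟩ (h4 v ha (h2 v ha))
      rw [Set.mem_preimage, hfi]; exact ha

lemma IsComponent.notMem {T : RTree} {v : T.V} {C : Set T.V} (h : IsComponent T v C) : v ∉ C := by
  obtain ⟨K, rfl⟩ := h
  rintro ⟨x, -, hx⟩
  exact x.2 hx

lemma IsComponent.closed {T : RTree} {v : T.V} {C : Set T.V} (h : IsComponent T v C) {x y : T.V}
    (hx : x ∈ C) (hxy : T.G.Adj x y) (hy : y ≠ v) : y ∈ C := by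
  obtain ⟨K, rfl⟩ := h
  obtain ⟨x, hx, rfl⟩ := hx
  refine ⟨⟨y, hy⟩, ?_, rfl⟩
  have h1 : (T.G.induce {v}ᶜ).Adj x ⟨y, hy⟩ := hxy
  rw [SimpleGraph.ConnectedComponent.mem_supp_iff] at hx ⊢
  rw [← hx]
  exact (SimpleGraph.ConnectedComponent.connectedComponentMk_eq_of_adj h1).symm

lemma good_copy {S T : RTree} {f : S.V → T.V} (h : IsCopy S T f) : Good S T f := by
  obtain ⟨v, C, i, j, hC, hrC, hi, hj, hij, hcov, hroot, hadj, hjadj, hijadj, hfi, hfj⟩ := h
  refine ⟨fun x => ⟨i x, hfi x⟩, by rw [hroot, hfi], ?_, ?_⟩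
  · rintro x y (rfl | h)
    · exact Or.inl rfl
    · rcases hcov x with ⟨x', rfl⟩ | ⟨x', rfl⟩ <;> rcases hcov y with ⟨y', rfl⟩ | ⟨y', rfl⟩
      · rw [hfi, hfi]
        exact Or.inr ((hadj _ _).1 h)
      · rw [hfi, hfj]
        obtain ⟨rfl, h2⟩ := (hijadj _ _).1 h
        exact Or.inr h2
      · rw [hfi, hfj]
        obtain ⟨rfl, h2⟩ := (hijadj _ _).1 h.symm
        exact Or.inr h2.symm
      · rw [hfj, hfj]
        exact Or.inr ((hjadj _ _).1 h)
  · rintro B ⟨h1, h2⟩
    have h4 : ∀ y, y ∈ B → ReflTransGen (fun a b => a ∈ B ∧ b ∈ B ∧ T.G.Adj a b) y T.root →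
        ReflTransGen (fun a b => a ∈ f ⁻¹' B ∧ b ∈ f ⁻¹' B ∧ S.G.Adj a b) (i y) S.root := by
      intro y _ hy
      induction hy using ReflTransGen.head_induction_on with
      | refl => rw [hroot]
      | @head x z hxz _ ih =>
        refine ReflTransGen.head ⟨?_, ?_, (hadj x z).2 hxz.2.2⟩ (ih hxz.2.1)
        · rw [Set.mem_preimage, hfi]; exact hxz.1
        · rw [Set.mem_preimage, hfi]; exact hxz.2.1
    have h5 : ∀ y, ReflTransGen (fun a b => a ∈ B ∧ b ∈ B ∧ T.G.Adj a b) y T.root →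
        ∀ hy : y ∈ C,
        ReflTransGen (fun a b => a ∈ f ⁻¹' B ∧ b ∈ f ⁻¹' B ∧ S.G.Adj a b) (j ⟨y, hy⟩) S.root := by
      intro y hy
      induction hy using ReflTransGen.head_induction_on with
      | refl => exact fun hy => absurd hy hrC
      | @head x z hxz hz ih =>
        intro hx
        by_cases hzv : z = v
        · subst hzv
          refine ReflTransGen.head ⟨?_, ?_, ((hijadj z ⟨x, hx⟩).2 ⟨rfl, hxz.2.2.symm⟩).symm⟩
            (h4 z hxz.2.1 hz)
          · rw [Set.mem_preimage, hfj]; exact hxz.1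
          · rw [Set.mem_preimage, hfi]; exact hxz.2.1
        · have hzC : z ∈ C := hC.closed hx hxz.2.2 hzv
          refine ReflTransGen.head ⟨?_, ?_, (hjadj ⟨x, hx⟩ ⟨z, hzC⟩).2 hxz.2.2⟩ (ih hzC)
          · rw [Set.mem_preimage, hfj]; exact hxz.1
          · rw [Set.mem_preimage, hfj]; exact hxz.2.1
    refine ⟨by rw [Set.mem_preimage, hroot, hfi]; exact h1, fun x hx => ?_⟩
    rcases hcov x with ⟨x', rfl⟩ | ⟨x', rfl⟩
    · rw [Set.mem_preimage, hfi] at hx
      exact h4 x' hx (h2 x' hx)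
    · rw [Set.mem_preimage, hfj] at hx
      exact h5 x' (h2 x' hx) x'.2

lemma SC.good {S T : RTree} {f : S.V → T.V} (h : SC S T f) : Good S T f := by
  induction h with
  | iso e h => exact good_iso e h
  | step hg _ ih =>
    rcases hg with h | h | h
    · exact (good_split h).comp ih
    · exact (good_copy h).comp ih
    · exact (good_leaf h).comp ih

lemma SC.of_step {S T : RTree} {f : S.V → T.V} (h : IsSplit S T f ∨ IsCopy S T f ∨ IsLeaf S T f) :
    SC S T f := by
  have h1 : SC T T id := SC.iso (SimpleGraph.Iso.refl : T.G ≃g T.G) rfl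
  exact SC.step (g := f) (f := id) h h1

/-- A criterion for bridges. -/
lemma bridge_of_collapse {V W : Type} {G : SimpleGraph V} {H : SimpleGraph W} (hH : H.IsAcyclic)
    (ρ : V → W) {s t : V} (hst : H.Adj (ρ s) (ρ t))
    (hρ : ∀ x y, G.Adj x y → s(x, y) ≠ s(s, t) →
      ρ x = ρ y ∨ (H.Adj (ρ x) (ρ y) ∧ s(ρ x, ρ y) ≠ s(ρ s, ρ t))) :
    G.IsBridge s(s, t) := by
  rw [SimpleGraph.isBridge_iff]
  rintro ⟨p⟩
  have h1 : H.IsBridge s(ρ s, ρ t) := SimpleGraph.isAcyclic_iff_forall_adj_isBridge.1 hH hst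
  rw [SimpleGraph.isBridge_iff] at h1
  apply h1
  have : ∀ x y, (G.deleteEdges {s(s, t)}).Walk x y →
      (H.deleteEdges {s(ρ s, ρ t)}).Reachable (ρ x) (ρ y) := by
    intro x y p
    induction p with
    | nil => exact SimpleGraph.Reachable.refl _
    | cons h _ ih =>
      refine SimpleGraph.Reachable.trans ?_ ih
      rw [SimpleGraph.deleteEdges_adj] at h
      rcases hρ _ _ h.1 h.2 with h2 | ⟨h2, h3⟩
      · rw [h2]
      · exact SimpleGraph.Adj.reachable (by rw [SimpleGraph.deleteEdges_adj]; exact ⟨h2, h3⟩)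
  exact this s t p

end Q173RF
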