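import Mathlib

/-!
# Rooted trees, simple*-confluent epimorphisms and the continuum of their projective Fraisse limit
-/

namespace Q173RF

/-- A finite rooted tree: a finite graph which is a tree (connected and acyclic; that is, any two
vertices are joined by a unique path), with a distinguished vertex. -/
structure RTree where
  V : Type
  finite : Finite V
  G : SimpleGraph V
  isTree : G.IsTree
  root : V

attribute [instance] RTree.finite

/-- The reflexive and symmetric edge relation of a tree. -/
def RTree.Edge (A : RTree) (x y : A.V) : Prop := x = y ∨ A.G.Adj x y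

/-- Vertex sets of finite trees carry the discrete topology. -/
instance (A : RTree) : TopologicalSpace A.V := ⊥

instance (A : RTree) : DiscreteTopology A.V := ⟨rfl⟩

/-- Step 1: `S` arises from `T` by splitting an edge `⟨a, b⟩` by a new vertex `c`, and `f` sends
`c` to `a` and fixes the other vertices (as `a`, `b` can be interchanged, `c` is sent to any of the
two ends of the edge). The injection `i` is the inclusion of the vertices of `T`. -/
def IsSplit (S T : RTree) (f : S.V → T.V) : Prop :=
  ∃ (a b : T.V) (i : T.V → S.V) (c : S.V),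
    T.G.Adj a b ∧ Function.Injective i ∧ (∀ x, i x ≠ c) ∧ (∀ s, (∃ x, s = i x) ∨ s = c) ∧
    S.root = i T.root ∧
    (∀ x y, S.G.Adj (i x) (i y) ↔ T.G.Adj x y ∧ s(x, y) ≠ s(a, b)) ∧
    (∀ x, S.G.Adj c (i x) ↔ x = a ∨ x = b) ∧
    (∀ x, f (i x) = x) ∧ f c = a

/-- `C` is the vertex set of a component of `T ∖ {v}`. -/
def IsComponent (T : RTree) (v : T.V) (C : Set T.V) : Prop :=
  ∃ K : (T.G.induce {v}ᶜ).ConnectedComponent, C = Subtype.val '' K.supp

/-- Step 2: `S` arises from `T` by adding a disjoint copy `j C` of a component `C` of `T ∖ {v}` not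
containing the root, attached to `v` in the same way as `C`; the copy is mapped onto `C` and the
other vertices are fixed. -/
def IsCopy (S T : RTree) (f : S.V → T.V) : Prop :=
  ∃ (v : T.V) (C : Set T.V) (i : T.V → S.V) (j : C → S.V),
    IsComponent T v C ∧ T.root ∉ C ∧
    Function.Injective i ∧ Function.Injective j ∧ (∀ x c, i x ≠ j c) ∧
    (∀ s, (∃ x, s = i x) ∨ ∃ c, s = j c) ∧
    S.root = i T.root ∧
    (∀ x y, S.G.Adj (i x) (i y) ↔ T.G.Adj x y) ∧
    (∀ x y : C, S.G.Adj (j x) (j y) ↔ T.G.Adj x y) ∧
    (∀ (x : T.V) (y : C), S.G.Adj (i x) (j y) ↔ x = v ∧ T.G.Adj v y) ∧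
    (∀ x, f (i x) = x) ∧ ∀ y : C, f (j y) = y

/-- Step 3: `S` arises from `T` by attaching a new vertex `w` by an edge to a vertex `v`; `f` sends
`w` to `v` and fixes the other vertices. -/
def IsLeaf (S T : RTree) (f : S.V → T.V) : Prop :=
  ∃ (v : T.V) (i : T.V → S.V) (w : S.V),
    Function.Injective i ∧ (∀ x, i x ≠ w) ∧ (∀ s, (∃ x, s = i x) ∨ s = w) ∧
    S.root = i T.root ∧
    (∀ x y, S.G.Adj (i x) (i y) ↔ T.G.Adj x y) ∧
    (∀ x, S.G.Adj w (i x) ↔ x = v) ∧
    (∀ x, f (i x) = x) ∧ f w = v

/-- `SC S T f`: the map `f` from the vertices of `S` to those of `T` is a simple*-confluent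
epimorphism: up to an isomorphism, `S` arises from `T` by finitely many steps of the three kinds and
`f` is the composite of the step maps. -/
inductive SC : (S T : RTree) → (S.V → T.V) → Prop
  | iso {S T : RTree} (e : S.G ≃g T.G) (h : e S.root = T.root) : SC S T e
  | step {R S T : RTree} {g : R.V → S.V} {f : S.V → T.V}
      (hg : IsSplit R S g ∨ IsCopy R S g ∨ IsLeaf R S g) (hf : SC S T f) : SC R T (f ∘ g)

lemma SC.map_root {S T : RTree} {f : S.V → T.V} (h : SC S T f) : f S.root = T.root := by
  induction h with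
  | iso e h => exact h
  | step hg _ ih =>
    rcases hg with ⟨a, b, i, c, h⟩ | ⟨v, C, i, j, h⟩ | ⟨v, i, w, h⟩
    · rw [Function.comp_apply, h.2.2.2.2.1, h.2.2.2.2.2.2.2.1, ih]
    · rw [Function.comp_apply, h.2.2.2.2.2.2.1, h.2.2.2.2.2.2.2.2.2.2.1, ih]
    · rw [Function.comp_apply, h.2.2.2.1, h.2.2.2.2.2.2.1, ih]

/-- The composite `α_m ∘ ⋯ ∘ α_{m+k-1}` of maps `α n : V (n + 1) → V n`. -/
def bond {V : ℕ → Type} (α : ∀ n, V (n + 1) → V n) (m : ℕ) : ∀ k, V (m + k) → V m
  | 0 => id
  | k + 1 => bond α m k ∘ α (m + k)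

/-- A Fraisse sequence for the family of finite rooted trees with simple*-confluent epimorphisms. -/
structure FraisseSeq where
  /-- the trees -/
  F : ℕ → RTree
  /-- the bonding maps -/
  α : ∀ n, (F (n + 1)).V → (F n).V
  sc : ∀ n, SC (F (n + 1)) (F n) (α n)
  /-- every tree of the family is the image of some `F n` under a family epimorphism -/
  cofinal : ∀ T : RTree, ∃ (n : ℕ) (f : (F n).V → T.V), SC (F n) T f
  /-- for every family epimorphism `φ : A → F m` there are `n = m + k` and a family epimorphism
  `ψ : F n → A` with `φ ∘ ψ = α_m ∘ ⋯ ∘ α_{n-1}` -/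
  absorb : ∀ (m : ℕ) (A : RTree) (φ : A.V → (F m).V), SC A (F m) φ →
    ∃ (k : ℕ) (ψ : (F (m + k)).V → A.V), SC (F (m + k)) A ψ ∧
      φ ∘ ψ = bond (V := fun n => (F n).V) α m k

namespace FraisseSeq

variable (D : FraisseSeq)

/-- The vertex space of the limit: the inverse limit of the (finite, discrete) vertex sets. -/
def Limit : Type := {x : ∀ n, (D.F n).V // ∀ n, D.α n (x (n + 1)) = x n}

instance : TopologicalSpace D.Limit := instTopologicalSpaceSubtype

/-- The edge relation of the limit. -/
def E (x y : D.Limit) : Prop := ∀ n, (D.F n).Edge (x.1 n) (y.1 n)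

/-- The root of the limit. -/
def rootThread : D.Limit := ⟨fun n => (D.F n).root, fun n => (D.sc n).map_root⟩

/-- The quotient space `|T_C|` of the vertex space by the edge relation (which is an equivalence
relation, see the theorem), with the quotient topology. -/
def Space : Type := Quot D.E

instance : TopologicalSpace D.Space := instTopologicalSpaceQuot

/-- The image `r` of the root in the quotient space. -/
def r : D.Space := Quot.mk _ D.rootThread

end FraisseSeq

/-- The space `X` is connected im kleinen at `p`: every neighbourhood of `p` contains a connected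
neighbourhood of `p`. -/
def IsCIK {X : Type} [TopologicalSpace X] (p : X) : Prop :=
  ∀ W : Set X, IsOpen W → p ∈ W → ∃ O K : Set X, IsOpen O ∧ p ∈ O ∧ O ⊆ K ∧ K ⊆ W ∧ IsConnected K

end Q173RF
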