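import Pool.Agent.Q173.RF.Build

/-! The limit of a Fraisse sequence and its quotient space. -/

namespace Q173RF

open Relation Set

namespace FraisseSeq

variable (D : FraisseSeq)

/-- abbreviation for the bonding maps -/
def bd (m k : ℕ) : (D.F (m + k)).V → (D.F m).V := bond (V := fun n => (D.F n).V) D.α m k

lemma bd_zero (m : ℕ) (x : (D.F m).V) : D.bd m 0 x = x := rfl

lemma bd_succ (m k : ℕ) (x : (D.F (m + k + 1)).V) :
    D.bd m (k + 1) x = D.bd m k (D.α (m + k) x) := rfl

lemma good_bd (m k : ℕ) : Good (D.F (m + k)) (D.F m) (D.bd m k) := by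
  induction k with
  | zero => exact Good.id _
  | succ k ih => exact (D.sc (m + k)).good.comp ih

lemma bd_thread (x : D.Limit) (m k : ℕ) : D.bd m k (x.1 (m + k)) = x.1 m := by
  induction k with
  | zero => rfl
  | succ k ih =>
    have h := x.2 (m + k)
    have h2 := D.bd_succ m k (x.1 (m + k + 1))
    rw [h] at h2
    exact h2.trans ih

/-- Threads through prescribed compatible values. -/
lemma exists_thread_of (n : ℕ) (b : ∀ j, (D.F j).V) (hb : ∀ j < n, D.α j (b (j + 1)) = b j) :
    ∃ y : D.Limit, ∀ j ≤ n, y.1 j = b j := by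
  classical
  have hg : ∀ j, ∃ g : (D.F j).V → (D.F (j + 1)).V, (∀ v, D.α j (g v) = v) ∧
      (D.α j (b (j + 1)) = b j → g (b j) = b (j + 1)) := by
    intro j
    choose g hg using (D.sc j).good.surj
    by_cases h : D.α j (b (j + 1)) = b j
    · refine ⟨Function.update g (b j) (b (j + 1)), fun v => ?_, fun _ => Function.update_self _ _ _⟩
      by_cases hv : v = b j
      · subst hv
        rw [Function.update_self, h]
      · rw [Function.update_of_ne hv, hg]
    · exact ⟨g, hg, fun h' => absurd h' h⟩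
  choose g hg1 hg2 using hg
  let y : ∀ j, (D.F j).V := fun j => Nat.rec (b 0) (fun j v => g j v) j
  refine ⟨⟨y, fun j => hg1 j (y j)⟩, ?_⟩
  intro j
  induction j with
  | zero => intro _; rfl
  | succ j ih =>
    intro hj
    show g j (y j) = b (j + 1)
    have h1 : y j = b j := ih (by omega)
    rw [h1]
    exact hg2 j (hb j (by omega))

lemma exists_compat (n : ℕ) : ∀ a : (D.F n).V, ∃ b : ∀ j, (D.F j).V, b n = a ∧
    ∀ j < n, D.α j (b (j + 1)) = b j := by
  classical
  induction n with
  | zero =>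
    intro a
    exact ⟨Function.update (fun j => (D.F j).root) 0 a, Function.update_self _ _ _,
      fun j hj => absurd hj (by omega)⟩
  | succ n ih =>
    intro a
    obtain ⟨b, hb1, hb2⟩ := ih (D.α n a)
    refine ⟨Function.update b (n + 1) a, Function.update_self _ _ _, fun j hj => ?_⟩
    by_cases h : j = n
    · subst h
      rw [Function.update_self, Function.update_of_ne (by omega), hb1]
    · rw [Function.update_of_ne (by omega), Function.update_of_ne (by omega)]
      exact hb2 j (by omega)

/-- Every vertex of `F n` lies on a thread. -/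
lemma exists_thread (n : ℕ) (a : (D.F n).V) : ∃ y : D.Limit, y.1 n = a := by
  obtain ⟨b, hb1, hb2⟩ := D.exists_compat n a
  obtain ⟨y, hy⟩ := D.exists_thread_of n b hb2
  exact ⟨y, (hy n le_rfl).trans hb1⟩

/-! ### The edge relation -/

lemma E_refl (x : D.Limit) : D.E x x := fun _ => Or.inl rfl

variable {D}

lemma E_symm {x y : D.Limit} (h : D.E x y) : D.E y x := fun n => (h n).symm

lemma edge_anti {x y : D.Limit} {m k : ℕ} (h : (D.F (m + k)).Edge (x.1 (m + k)) (y.1 (m + k))) :
    (D.F m).Edge (x.1 m) (y.1 m) := by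
  have := (D.good_bd m k).edge _ _ h
  rwa [D.bd_thread, D.bd_thread] at this

lemma E_trans {x y z : D.Limit} (hxy : D.E x y) (hyz : D.E y z) : D.E x z := by
  intro m
  by_contra hxz
  have h1 : x.1 m ≠ y.1 m := fun h => hxz (h ▸ hyz m)
  have h2 : y.1 m ≠ z.1 m := fun h => hxz (h ▸ hxy m)
  have a1 : (D.F m).G.Adj (x.1 m) (y.1 m) := (hxy m).resolve_left h1
  have a2 : (D.F m).G.Adj (y.1 m) (z.1 m) := (hyz m).resolve_left h2
  have h3 : x.1 m ≠ z.1 m := fun h => hxz (Or.inl h)
  let φ : Option (D.F m).V → (D.F m).V := fun o => o.getD (y.1 m)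
  obtain ⟨k, ψ, hψ, hcomp⟩ := D.absorb m (splitTree (D.F m) (y.1 m) (z.1 m) a2) φ
    (SC.of_step (Or.inl (splitTree_isSplit _ _ _ a2)))
  have hc : ∀ w : D.Limit, φ (ψ (w.1 (m + k))) = w.1 m := by
    intro w
    rw [← D.bd_thread w m k]
    exact congrFun hcomp _
  have e1 := hψ.good.edge _ _ (hxy (m + k))
  have e2 := hψ.good.edge _ _ (hyz (m + k))
  have cx := hc x
  have cy := hc y
  have cz := hc z
  generalize ψ (x.1 (m + k)) = x' at *
  generalize ψ (y.1 (m + k)) = y' at *
  generalize ψ (z.1 (m + k)) = z' at *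
  change Option (D.F m).V at x' y' z'
  rcases x' with _ | x'
  · exact h1 cx.symm
  rcases z' with _ | z'
  · exact h2 cz
  have hx : x' = x.1 m := cx
  have hz : z' = z.1 m := cz
  subst hx hz
  rcases y' with _ | y'
  · rcases e1 with e1 | e1
    · exact absurd e1 (by simp)
    · rcases e1 with e1 | e1
      · exact h1 e1
      · exact h3 e1
  · have hy : y' = y.1 m := cy
    subst hy
    rcases e2 with e2 | e2
    · exact h2 (Option.some.inj e2)
    · exact e2.2 rfl

lemma E_equivalence (D : FraisseSeq) : Equivalence D.E :=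
  ⟨D.E_refl, E_symm, E_trans⟩

lemma mk_eq_iff {x y : D.Limit} : (Quot.mk D.E x = Quot.mk D.E y) ↔ D.E x y :=
  (E_equivalence D).quot_mk_eq_iff x y

/-! ### Topology -/

lemma continuous_coord (n : ℕ) : Continuous fun x : D.Limit => x.1 n :=
  (continuous_apply n).comp continuous_subtype_val

instance : CompactSpace D.Limit := by
  have hcl : IsClosed {x : ∀ n, (D.F n).V | ∀ n, D.α n (x (n + 1)) = x n} := by
    rw [show {x : ∀ n, (D.F n).V | ∀ n, D.α n (x (n + 1)) = x n} =
      ⋂ n, {x : ∀ n, (D.F n).V | D.α n (x (n + 1)) = x n} by ext; simp]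
    exact isClosed_iInter fun n => isClosed_eq
      (continuous_of_discreteTopology.comp (continuous_apply (n + 1))) (continuous_apply n)
  exact isCompact_iff_compactSpace.1 hcl.isCompact

instance : T2Space D.Limit := inferInstanceAs (T2Space (Subtype _))

lemma isClopen_coord (n : ℕ) (A : Set (D.F n).V) : IsClopen {x : D.Limit | x.1 n ∈ A} :=
  (isClopen_discrete A).preimage (continuous_coord n)

/-- the pairs with an edge at level `n` -/
lemma isClosed_edge (n : ℕ) :
    IsClosed {p : D.Limit × D.Limit | (D.F n).Edge (p.1.1 n) (p.2.1 n)} := by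
  have h : Continuous fun p : D.Limit × D.Limit => (p.1.1 n, p.2.1 n) :=
    ((continuous_coord n).comp continuous_fst).prodMk ((continuous_coord n).comp continuous_snd)
  exact (isClosed_discrete {q : (D.F n).V × (D.F n).V | (D.F n).Edge q.1 q.2}).preimage h

lemma isClosed_E : IsClosed {p : D.Limit × D.Limit | D.E p.1 p.2} := by
  rw [show {p : D.Limit × D.Limit | D.E p.1 p.2} =
    ⋂ n, {p : D.Limit × D.Limit | (D.F n).Edge (p.1.1 n) (p.2.1 n)} by ext; simp [E]]
  exact isClosed_iInter fun n => isClosed_edge n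

/-- the quotient map -/
def q (x : D.Limit) : D.Space := Quot.mk _ x

lemma isQuotientMap_q : Topology.IsQuotientMap (q : D.Limit → D.Space) := isQuotientMap_quot_mk

lemma isClosedMap_q : IsClosedMap (q : D.Limit → D.Space) := by
  intro A hA
  rw [← isQuotientMap_q.isClosed_preimage]
  have : q ⁻¹' (q '' A) = Prod.snd '' ({p : D.Limit × D.Limit | D.E p.1 p.2} ∩ A ×ˢ univ) := by
    ext y
    constructor
    · rintro ⟨x, hx, hxy⟩
      exact ⟨(x, y), ⟨mk_eq_iff.1 hxy, hx, mem_univ _⟩, rfl⟩
    · rintro ⟨⟨x, y'⟩, ⟨h1, h2, -⟩, rfl⟩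
      exact ⟨x, h2, mk_eq_iff.2 h1⟩
  rw [this]
  exact ((isClosed_E.inter (hA.prod isClosed_univ)).isCompact.image continuous_snd).isClosed

end FraisseSeq

end Q173RF
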