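import Pool.Agent.Q173.RF.Limit

/-! The root is the only point at which the quotient space is connected im kleinen. -/

namespace Q173RF

open Relation Set

namespace FraisseSeq

variable {D : FraisseSeq}

lemma eq_below {x y : D.Limit} : ∀ n, x.1 n = y.1 n → ∀ j ≤ n, x.1 j = y.1 j := by
  intro n
  induction n with
  | zero =>
    intro h j hj
    obtain rfl : j = 0 := by omega
    exact h
  | succ n ih =>
    intro h j hj
    rcases Nat.lt_or_ge n j with hlt | hge
    · obtain rfl : j = n + 1 := by omega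
      exact h
    · refine ih ?_ j hge
      rw [← x.2 n, ← y.2 n, h]

/-- the points of the limit whose `n`-th coordinate is the root or adjacent to it -/
def near (D : FraisseSeq) (n : ℕ) : Set D.Limit :=
  {x | x.1 n ∈ {v | (D.F n).Edge (D.F n).root v}}

lemma isClopen_near (n : ℕ) : IsClopen (near D n) := isClopen_coord n _

lemma near_anti (n : ℕ) : near D (n + 1) ⊆ near D n := by
  intro x hx
  have h := (D.sc n).good.edge _ _ (show (D.F (n + 1)).Edge (D.F (n + 1)).root (x.1 (n + 1)) from hx)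
  rw [(D.sc n).map_root, x.2 n] at h
  exact h

lemma rconn_near (n : ℕ) : RConn (D.F n) {v | (D.F n).Edge (D.F n).root v} := by
  refine ⟨Or.inl rfl, ?_⟩
  rintro v (rfl | h)
  · exact ReflTransGen.refl
  · exact ReflTransGen.single ⟨Or.inr h, Or.inl rfl, h.symm⟩

/-- a separation of `near D n` at a finite level is impossible -/
lemma no_separation {n m : ℕ} {C₁ C₂ : Set D.Limit} (hcov : near D n ⊆ C₁ ∪ C₂)
    (hno : ∀ x ∈ C₁, ∀ y ∈ C₂, ¬ (D.F (n + m)).Edge (x.1 (n + m)) (y.1 (n + m)))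
    (h₂ : (near D n ∩ C₂).Nonempty) (hroot : D.rootThread ∈ C₁) : False := by
  have hP := (D.good_bd n m).conn _ (rconn_near n)
  have hmem : ∀ v ∈ D.bd n m ⁻¹' {v | (D.F n).Edge (D.F n).root v},
      (∃ x ∈ C₁, x.1 (n + m) = v) ∨ ∃ x ∈ C₂, x.1 (n + m) = v := by
    intro v hv
    obtain ⟨x, hx⟩ := D.exists_thread (n + m) v
    have hxn : x ∈ near D n := by
      show (D.F n).Edge (D.F n).root (x.1 n)
      rw [← D.bd_thread x n m, hx]
      exact hv
    rcases hcov hxn with h | h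
    · exact Or.inl ⟨x, h, hx⟩
    · exact Or.inr ⟨x, h, hx⟩
  have hall : ∀ v, v ∈ D.bd n m ⁻¹' {v | (D.F n).Edge (D.F n).root v} →
      ∃ x ∈ C₁, x.1 (n + m) = v := by
    intro v hv
    have h := hP.2 v hv
    induction h using ReflTransGen.head_induction_on with
    | refl => exact ⟨D.rootThread, hroot, rfl⟩
    | @head v z hvz _ ih =>
      obtain ⟨x, hx1, hx2⟩ := ih hvz.2.1
      rcases hmem v hv with h | ⟨y, hy1, hy2⟩
      · exact h
      · exact absurd (Or.inr (by rw [hx2, hy2]; exact hvz.2.2.symm)) (hno x hx1 y hy1)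
  obtain ⟨y, hy1, hy2⟩ := h₂
  have hy3 : y.1 (n + m) ∈ D.bd n m ⁻¹' {v | (D.F n).Edge (D.F n).root v} := by
    rw [mem_preimage, D.bd_thread]
    exact hy1
  obtain ⟨x, hx1, hx2⟩ := hall _ hy3
  exact hno x hx1 y hy2 (Or.inl hx2)

lemma isPreconnected_near (n : ℕ) : IsPreconnected (q '' near D n) := by
  rw [isPreconnected_closed_iff]
  rintro t t' ht ht' hcov ⟨p, hp, hpt⟩ ⟨p', hp', hpt'⟩
  obtain ⟨x, hx, rfl⟩ := hp
  obtain ⟨y, hy, rfl⟩ := hp'
  by_contra hemp
  let C₁ : Set D.Limit := near D n ∩ q ⁻¹' t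
  let C₂ : Set D.Limit := near D n ∩ q ⁻¹' t'
  have hC₁ : IsClosed C₁ := (isClopen_near n).1.inter (ht.preimage isQuotientMap_q.continuous)
  have hC₂ : IsClosed C₂ := (isClopen_near n).1.inter (ht'.preimage isQuotientMap_q.continuous)
  have hc : near D n ⊆ C₁ ∪ C₂ := by
    intro z hz
    rcases hcov ⟨z, hz, rfl⟩ with h | h
    · exact Or.inl ⟨hz, h⟩
    · exact Or.inr ⟨hz, h⟩
  have hlevel : ∃ m, ∀ x ∈ C₁, ∀ y ∈ C₂, ¬ (D.F (n + m)).Edge (x.1 (n + m)) (y.1 (n + m)) := by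
    by_contra hcon
    push Not at hcon
    let P : ℕ → Set (D.Limit × D.Limit) := fun m =>
      (C₁ ×ˢ C₂) ∩ {p | (D.F (n + m)).Edge (p.1.1 (n + m)) (p.2.1 (n + m))}
    have hP : (⋂ m, P m).Nonempty := by
      refine IsCompact.nonempty_iInter_of_sequence_nonempty_isCompact_isClosed P ?_ ?_ ?_ ?_
      · rintro m ⟨a, b⟩ ⟨h1, h2⟩
        exact ⟨h1, edge_anti (k := 1) h2⟩
      · intro m
        obtain ⟨a, ha, b, hb, hab⟩ := hcon m
        exact ⟨(a, b), ⟨ha, hb⟩, hab⟩
      · exact ((hC₁.prod hC₂).inter (isClosed_edge _)).isCompact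
      · intro m
        exact (hC₁.prod hC₂).inter (isClosed_edge _)
    obtain ⟨⟨a, b⟩, hab⟩ := hP
    rw [mem_iInter] at hab
    have hE : D.E a b := by
      intro j
      have h1 := (hab j).2
      have h2 : (D.F (n + j)).Edge (a.1 (n + j)) (b.1 (n + j)) := h1
      -- move to level `j + n`
      have h3 : (D.F (j + n)).Edge (a.1 (j + n)) (b.1 (j + n)) := by
        rw [Nat.add_comm j n]
        exact h2
      exact edge_anti h3
    have hq : (q a : D.Space) = q b := mk_eq_iff.2 hE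
    refine hemp ⟨q a, ⟨a, (hab 0).1.1.1, rfl⟩, (hab 0).1.1.2, ?_⟩
    rw [hq]
    exact (hab 0).1.2.2
  obtain ⟨m, hm⟩ := hlevel
  have hroot : D.rootThread ∈ near D n := Or.inl rfl
  rcases hc hroot with h | h
  · exact no_separation hc hm ⟨y, hy, hy, hpt'⟩ h
  · refine no_separation (C₁ := C₂) (C₂ := C₁) (by rwa [union_comm])
      (fun x hx y hy h' => hm y hy x hx h'.symm) ⟨x, hx, hx, hpt⟩ h

theorem isCIK_root (D : FraisseSeq) : IsCIK D.r := by
  intro W hW hrW
  have hWo : IsOpen (q ⁻¹' W : Set D.Limit) := hW.preimage isQuotientMap_q.continuous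
  have hn : ∃ n, near D n ⊆ q ⁻¹' W := by
    by_contra hcon
    push Not at hcon
    have hP : (⋂ n, near D n ∩ (q ⁻¹' W)ᶜ).Nonempty := by
      refine IsCompact.nonempty_iInter_of_sequence_nonempty_isCompact_isClosed
        (fun n => near D n ∩ (q ⁻¹' W)ᶜ) ?_ ?_ ?_ ?_
      · intro n
        exact inter_subset_inter_left _ (near_anti n)
      · intro n
        obtain ⟨x, hx1, hx2⟩ := not_subset.1 (hcon n)
        exact ⟨x, hx1, hx2⟩
      · exact ((isClopen_near 0).1.inter hWo.isClosed_compl).isCompact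
      · intro n
        exact (isClopen_near n).1.inter hWo.isClosed_compl
    obtain ⟨x, hx⟩ := hP
    rw [mem_iInter] at hx
    have hE : D.E D.rootThread x := fun n => (hx n).1
    apply (hx 0).2
    have h : (q D.rootThread : D.Space) = q x := mk_eq_iff.2 hE
    show q x ∈ W
    rw [← h]
    exact hrW
  obtain ⟨n, hn⟩ := hn
  have hcl : IsClosed (q '' (near D n)ᶜ : Set D.Space) :=
    isClosedMap_q _ (isClopen_near n).compl.1
  refine ⟨(q '' (near D n)ᶜ)ᶜ, q '' near D n, hcl.isOpen_compl, ?_, ?_, ?_, ⟨q D.rootThread, ?_⟩,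
    isPreconnected_near n⟩
  · rintro ⟨x, hx, hxr⟩
    exact hx (mk_eq_iff.1 hxr.symm n)
  · intro p hp
    induction p using Quot.ind with
    | mk x =>
      by_contra h
      exact hp ⟨x, fun hx => h ⟨x, hx, rfl⟩, rfl⟩
  · rintro _ ⟨x, hx, rfl⟩
    exact hn hx
  · exact ⟨D.rootThread, Or.inl rfl, rfl⟩

theorem not_isCIK {p : D.Space} (hp : p ≠ D.r) : ¬ IsCIK p := by
  intro hcik
  induction p using Quot.ind with
  | mk x =>
    have hE : ¬ D.E D.rootThread x := fun h => hp (mk_eq_iff.2 h).symm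
    have hE' : ∃ m, ¬ (D.F m).Edge (D.F m).root (x.1 m) := by
      by_contra hcon
      push Not at hcon
      exact hE hcon
    obtain ⟨m, hm⟩ := hE'
    let Z : Set D.Limit := {z | z.1 m ∈ ({(D.F m).root} : Set (D.F m).V)}
    have hZ : IsClopen Z := isClopen_coord m _
    have hW : IsOpen (q '' Z : Set D.Space)ᶜ := (isClosedMap_q _ hZ.1).isOpen_compl
    have hxW : q x ∈ (q '' Z : Set D.Space)ᶜ := by
      rintro ⟨z, hz, hzx⟩
      have h1 := mk_eq_iff.1 hzx m
      rw [show z.1 m = (D.F m).root from hz] at h1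
      exact hm h1
    obtain ⟨O, K, hO, hxO, hOK, hKW, hK⟩ := hcik _ hW hxW
    have hOo : IsOpen (q ⁻¹' O : Set D.Limit) := hO.preimage isQuotientMap_q.continuous
    -- a level `k` controlling membership in `O`
    have hk : ∃ k, ∀ y : D.Limit, (∀ j ≤ k, y.1 j = x.1 j) → y ∈ (q ⁻¹' O : Set D.Limit) := by
      by_contra hcon
      push Not at hcon
      have hY : ∀ k, IsClosed {y : D.Limit | ∀ j ≤ k, y.1 j = x.1 j} := by
        intro k
        rw [show {y : D.Limit | ∀ j ≤ k, y.1 j = x.1 j} =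
          ⋂ j, ⋂ (_ : j ≤ k), {y : D.Limit | y.1 j ∈ ({x.1 j} : Set (D.F j).V)} by ext; simp]
        exact isClosed_iInter fun j => isClosed_iInter fun _ => (isClopen_coord j _).1
      have hP : (⋂ k, {y : D.Limit | ∀ j ≤ k, y.1 j = x.1 j} ∩ (q ⁻¹' O)ᶜ).Nonempty := by
        refine IsCompact.nonempty_iInter_of_sequence_nonempty_isCompact_isClosed
          (fun k => {y : D.Limit | ∀ j ≤ k, y.1 j = x.1 j} ∩ (q ⁻¹' O)ᶜ) ?_ ?_ ?_ ?_
        · intro k
          refine inter_subset_inter_left _ fun y hy j hj => hy j (by omega)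
        · intro k
          obtain ⟨y, hy1, hy2⟩ := hcon k
          exact ⟨y, hy1, hy2⟩
        · exact ((hY 0).inter hOo.isClosed_compl).isCompact
        · intro k
          exact (hY k).inter hOo.isClosed_compl
      obtain ⟨y, hy⟩ := hP
      rw [mem_iInter] at hy
      have hyx : y = x := Subtype.ext (funext fun j => (hy j).1 j le_rfl)
      exact (hy 0).2 (hyx ▸ hxO)
    obtain ⟨k, hk⟩ := hk
    -- the level `M = m + k`
    obtain ⟨M, hMdef⟩ : ∃ M, M = m + k := ⟨_, rfl⟩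
    have hrootM : ∀ z : D.Limit, z.1 M = (D.F M).root → z.1 m = (D.F m).root := by
      intro z hz
      subst hMdef
      rw [← D.bd_thread z m k, hz]
      exact (D.good_bd m k).root
    have hxM : x.1 M ≠ (D.F M).root := by
      intro h
      apply hm
      rw [hrootM x h]
      exact Or.inl rfl
    let C : Set (D.F M).V := Subtype.val ''
      (((D.F M).G.induce {(D.F M).root}ᶜ).connectedComponentMk ⟨x.1 M, hxM⟩).supp
    have hC : IsComponent (D.F M) (D.F M).root C := ⟨_, rfl⟩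
    have hxC : x.1 M ∈ C := ⟨⟨x.1 M, hxM⟩, rfl, rfl⟩
    obtain ⟨l, ψ, hψ, hcomp⟩ := D.absorb M (copyTree (D.F M) (D.F M).root C hC)
      (copyMap (D.F M) C) (SC.of_step (Or.inr (Or.inl (copyTree_isCopy _ _ _ hC hC.notMem))))
    have hcm : ∀ z : D.Limit, copyMap (D.F M) C (ψ (z.1 (M + l))) = z.1 M := by
      intro z
      rw [← D.bd_thread z M l]
      exact congrFun hcomp _
    let t₁ : Set D.Limit := {z | z.1 (M + l) ∈ {v | ∃ c : C, ψ v = Sum.inr c}}
    let t₂ : Set D.Limit := {z | z.1 (M + l) ∈ {v | ∃ u : (D.F M).V, u ≠ (D.F M).root ∧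
      ψ v = Sum.inl u}}
    have ht₁ : IsClosed t₁ := (isClopen_coord _ _).1
    have ht₂ : IsClosed t₂ := (isClopen_coord _ _).1
    have hcov : ∀ z : D.Limit, q z ∈ K → z ∈ t₁ ∨ z ∈ t₂ := by
      intro z hz
      rcases hψz : (ψ (z.1 (M + l)) : (D.F M).V ⊕ C) with u | c
      · refine Or.inr ⟨u, ?_, hψz⟩
        rintro rfl
        refine hKW hz ⟨z, hrootM z ?_, rfl⟩
        rw [← hcm z, hψz]
        rfl
      · exact Or.inl ⟨c, hψz⟩
    -- the second point
    have hy : ∃ y : D.Limit, y.1 M = x.1 M ∧ ((x ∈ t₁ ∧ y ∈ t₂) ∨ (x ∈ t₂ ∧ y ∈ t₁)) := by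
      have hx1 := hcov x (hOK hxO)
      rcases hx1 with h1 | h1
      · obtain ⟨w, hw⟩ := hψ.good.surj (Sum.inl (x.1 M))
        obtain ⟨y, hyw⟩ := D.exists_thread (M + l) w
        refine ⟨y, ?_, Or.inl ⟨h1, x.1 M, hxM, by rw [hyw]; exact hw⟩⟩
        rw [← hcm y, hyw, hw]
        rfl
      · obtain ⟨w, hw⟩ := hψ.good.surj (Sum.inr ⟨x.1 M, hxC⟩)
        obtain ⟨y, hyw⟩ := D.exists_thread (M + l) w
        refine ⟨y, ?_, Or.inr ⟨h1, ⟨x.1 M, hxC⟩, by rw [hyw]; exact hw⟩⟩
        rw [← hcm y, hyw, hw]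
        rfl
    obtain ⟨y, hyM, hyt⟩ := hy
    have hyO : q y ∈ O := hk y fun j hj => eq_below M hyM j (by omega)
    have hK' := isPreconnected_closed_iff.1 hK.isPreconnected (q '' t₁) (q '' t₂)
      (isClosedMap_q _ ht₁) (isClosedMap_q _ ht₂) (by
        intro p hp
        induction p using Quot.ind with
        | mk z =>
          rcases hcov z hp with h | h
          · exact Or.inl ⟨z, h, rfl⟩
          · exact Or.inr ⟨z, h, rfl⟩)
    have hne : (K ∩ (q '' t₁ ∩ q '' t₂)).Nonempty := by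
      rcases hyt with ⟨h1, h2⟩ | ⟨h1, h2⟩
      · exact hK' ⟨q x, hOK hxO, x, h1, rfl⟩ ⟨q y, hOK hyO, y, h2, rfl⟩
      · exact hK' ⟨q y, hOK hyO, y, h2, rfl⟩ ⟨q x, hOK hxO, x, h1, rfl⟩
    obtain ⟨p, -, ⟨z₁, ⟨c, hc⟩, hz₁⟩, ⟨z₂, ⟨u, hu, hu'⟩, hz₂⟩⟩ := hne
    have hEz : D.E z₁ z₂ := mk_eq_iff.1 (hz₁.trans hz₂.symm)
    have hedge := hψ.good.edge _ _ (hEz (M + l))
    rw [hc, hu'] at hedge
    rcases hedge with h | h
    · exact absurd h (by simp)
    · exact hu h.1

end FraisseSeq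

lemma IsCIK.image {X Y : Type} [TopologicalSpace X] [TopologicalSpace Y] (h : X ≃ₜ Y) {p : X}
    (hp : IsCIK p) : IsCIK (h p) := by
  intro W hW hpW
  obtain ⟨O, K, hO, hpO, hOK, hKW, hK⟩ := hp (h ⁻¹' W) (hW.preimage h.continuous) hpW
  refine ⟨h '' O, h '' K, h.isOpenMap _ hO, ⟨p, hpO, rfl⟩, image_mono hOK, ?_,
    hK.image _ h.continuous.continuousOn⟩
  rintro _ ⟨x, hx, rfl⟩
  exact hKW hx

/-- The root is the only point at which the space is connected im kleinen. -/
theorem isCIK_iff (D : FraisseSeq) (p : D.Space) : IsCIK p ↔ p = D.r := by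
  constructor
  · intro h
    by_contra hp
    exact FraisseSeq.not_isCIK hp h
  · rintro rfl
    exact FraisseSeq.isCIK_root D

theorem homeo_fixes_root (D : FraisseSeq) (h : D.Space ≃ₜ D.Space) : h D.r = D.r :=
  (isCIK_iff D _).1 (((isCIK_iff D _).2 rfl).image h)

end Q173RF
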